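import Pool.Agent.Helper21.E6.Flat

set_option autoImplicit false

/-! MP_e6aa12_ag, every characteristic: chains of unit moves from a flat state with one further row;
at most one more row is consumed. The multiplicity is `m = q + 1`. -/

namespace Pool.Agent.Helper21.E6

open Pool.Agent.Helper41.Fat Pool.Agent.Helper42.Game Pool.Agent.Helper7.NM
open Pool.Agent.Helper7.Free
open Pool.Agent.Helper42.Canon (S)

variable {K : Type*} [Field K]

theorem sum_F (x q t : ℕ) (e : ℕ → ℕ) :
    2 * ∑ c ∈ Finset.range (q + 1), F x q t e c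
      = (q + 1) * (x * q + 2 * t) + 2 * ∑ c ∈ Finset.range (q + 1), e c := by
  have h1 : ∑ c ∈ Finset.range (q + 1), F x q t e c
      = ∑ c ∈ Finset.range (q + 1), (x * (q - c) + t) + ∑ c ∈ Finset.range (q + 1), e c := by
    rw [← Finset.sum_add_distrib]
    refine Finset.sum_congr rfl fun c hc => ?_
    rw [Finset.mem_range] at hc
    rw [F, if_pos (by omega)]
  have h3 : ∑ c ∈ Finset.range (q + 1), (x * (q - c) + t)
      = x * (q + 1).choose 2 + (q + 1) * t := by
    rw [Finset.sum_add_distrib, ← Finset.mul_sum, Finset.sum_const, Finset.card_range,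
      smul_eq_mul, Finset.sum_range_succ, Nat.sub_self, add_zero, sum_stair]
  rw [h1, h3]
  have h4 := two_mul_choose q
  have h5 : 2 * (x * (q + 1).choose 2 + (q + 1) * t + ∑ c ∈ Finset.range (q + 1), e c)
      = x * (2 * (q + 1).choose 2) + 2 * ((q + 1) * t)
        + 2 * ∑ c ∈ Finset.range (q + 1), e c := by ring
  rw [h5, h4]
  ring

/-- No further row disappears. -/
theorem rest [Infinite K] {r q : ℕ} : ∀ (j x t : ℕ) (E : ℕ → ℕ), (∀ c, E c ≤ 1) →
    x + 2 * j = r → 1 ≤ x → j * q ≤ t → t + 1 ≤ r + j * q →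
    Good K r (q + 1) (F x q t E) (∑ c ∈ Finset.range (q + 1), F x q t E c) := by
  intro j
  induction j with
  | zero =>
    intro x t E hE hx _ _ ht
    simp only [mul_zero, add_zero, zero_mul] at hx ht
    subst hx
    apply good_of_le _ _ le_rfl
    · intro c hc
      rw [F, if_pos (by omega)]
      have e1 : x * (q + 1 - c) = x * (q - c) + x := by
        rw [← Nat.mul_succ]; congr 1; omega
      have := hE c
      omega
    · intro c hc
      rw [F, if_neg (by omega)]
  | succ j ih =>
    intro x t E hE hx h1 h2 h3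
    have e1 : (j + 1) * q = j * q + q := by ring
    have hq : q ≤ t := by omega
    apply nodal_move 1 q (F_antitone h1 hE)
    have hs := nod_sum 1 q (F x q t E)
    rw [nod_flat hq] at hs ⊢
    rw [← hs]
    exact ih (x + 2) (t - q) E hE (by omega) (by omega) (by omega) (by omega)

theorem sum_eB {q t X : ℕ} (h : X + t ≤ q) :
    ∑ i ∈ Finset.range (q + 1), (if i < t ∨ q + 1 ≤ X + i then 1 else 0) = t + X := by
  rw [← Finset.card_filter]
  have : (Finset.range (q + 1)).filter (fun i => i < t ∨ q + 1 ≤ X + i)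
      = Finset.range t ∪ Finset.Ico (q + 1 - X) (q + 1) := by
    ext i
    simp only [Finset.mem_filter, Finset.mem_range, Finset.mem_union, Finset.mem_Ico]
    omega
  rw [this, Finset.card_union_of_disjoint, Finset.card_range, Nat.card_Ico]
  · omega
  · rw [Finset.disjoint_left]
    intro c hc hc2
    rw [Finset.mem_range] at hc
    rw [Finset.mem_Ico] at hc2
    omega

theorem sum_eC {q t X : ℕ} (ht : t < q + 1) (hX : X ≤ q + 1) (h : q + 1 ≤ X + t) :
    ∑ i ∈ Finset.range (q + 1), (if q + 1 + 1 ≤ X + i ∧ i ≤ t then 1 else 0)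
      = X + t - (q + 1) := by
  rw [← Finset.card_filter]
  have : (Finset.range (q + 1)).filter (fun i => q + 1 + 1 ≤ X + i ∧ i ≤ t)
      = Finset.Ico (q + 2 - X) (t + 1) := by
    ext i
    simp only [Finset.mem_filter, Finset.mem_range, Finset.mem_Ico]
    omega
  rw [this, Nat.card_Ico]
  omega

/-- From the count of the cells to the length of the last row. -/
theorem len_of_count {r q x t j s N : ℕ} (hx : x + 2 * j = r) (hs : s ≤ q + 1)
    (hN : N = (q + 1) * (x * q + 2 * t) + 2 * s) (h : r * (q + 1) * q + 2 * (q + 1) ≤ N) :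
    j * q ≤ t := by
  have h1 : (q + 1) * (r * q) ≤ (q + 1) * (x * q + 2 * t) := by
    have e : (q + 1) * (r * q) = r * (q + 1) * q := by ring
    omega
  have h2 := Nat.le_of_mul_le_mul_left h1 (Nat.succ_pos q)
  rw [← hx] at h2
  have e2 : (x + 2 * j) * q = x * q + 2 * (j * q) := by ring
  omega

/-- **Chains from a state `S` with `q = m`.** -/
theorem chainS [Infinite K] {r q ρ : ℕ} (hρ : ρ ≤ r * (q + 2).choose 2) :
    ∀ j x t X : ℕ, x + 2 * j = r → 1 ≤ x → X ≤ q + 1 → q ≤ x →
      2 * ρ ≤ (q + 2) * (x * (q + 1) + 2 * t) + 2 * X →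
      r * (q + 1) * q + 2 * (q + 1) ≤ (q + 2) * (x * (q + 1) + 2 * t) + 2 * X →
      Good K r (q + 1) (S x (q + 1) t X) ρ := by
  intro j
  induction j with
  | zero =>
    intro x t X hx _ _ _ _ _
    simp only [mul_zero, add_zero] at hx
    subst hx
    refine Good.le hρ (good_of_ge fun c hc => ?_)
    rw [S, if_pos (by omega)]
    omega
  | succ j ih =>
    intro x t X hx h1 hX hq hN1 hN2
    by_cases ht : q + 1 ≤ t
    · have e0 : S x (q + 1) t X = F x (q + 1) t (fun c => if c < X then 1 else 0) := rfl
      rw [e0]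
      apply nodal_move 1 (q + 1) (F_antitone h1 (fun c => by split_ifs <;> omega))
      rw [nod_flat ht]
      have e1 : F (x + 2) (q + 1) (t - (q + 1)) (fun c => if c < X then 1 else 0)
        = S (x + 2) (q + 1) (t - (q + 1)) X := rfl
      rw [e1]
      have e2 : (x + 2) * (q + 1) + 2 * (t - (q + 1)) = x * (q + 1) + 2 * t := by
        obtain ⟨s, rfl⟩ : ∃ s, t = q + 1 + s := ⟨t - (q + 1), by omega⟩
        rw [Nat.add_sub_cancel_left]; ring
      apply ih (x + 2) (t - (q + 1)) X (by omega) (by omega) hX (by omega)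
      · rw [e2]; exact hN1
      · rw [e2]; exact hN2
    · by_cases hb : X + t + 1 ≤ q + 1
      · apply moveI (stepB x (q + 1) t X (by omega) hb)
        have e0 : q + 1 - 1 = q := by omega
        rw [e0]
        have hs := sum_F (x + 2) q (x + 1 + t - (q + 1))
          (fun i => if i < t ∨ q + 1 ≤ X + i then 1 else 0)
        rw [sum_eB (by omega)] at hs
        have e3 : (q + 1) * ((x + 2) * q + 2 * (x + 1 + t - (q + 1))) + 2 * (t + X)
            = (q + 2) * (x * (q + 1) + 2 * t) + 2 * X := by
          obtain ⟨y, hy⟩ : ∃ y, x + t = q + y := ⟨x + t - q, by omega⟩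
          have e1 : x + 1 + t - (q + 1) = y := by omega
          rw [e1]
          have e3 : (x + 2) * q + 2 * y = x * q + 2 * (q + y) := by ring
          rw [e3, ← hy]
          ring
        rw [e3] at hs
        refine Good.le ?_ (rest j (x + 2) _ _ (fun c => by split_ifs <;> omega) (by omega)
          (by omega) (len_of_count (by omega) (by omega) e3.symm hN2) (by omega))
        omega
      · apply moveI (stepC x (q + 1) t X (by omega) (by omega) hX (by omega))
        have e0 : q + 1 - 1 = q := by omega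
        rw [e0]
        have hs := sum_F (x + 2) q (x + 2 + t - (q + 1))
          (fun i => if q + 1 + 1 ≤ X + i ∧ i ≤ t then 1 else 0)
        rw [sum_eC (by omega) hX (by omega)] at hs
        have e3 : (q + 1) * ((x + 2) * q + 2 * (x + 2 + t - (q + 1))) + 2 * (X + t - (q + 1))
            = (q + 2) * (x * (q + 1) + 2 * t) + 2 * X := by
          obtain ⟨y, hy⟩ : ∃ y, x + t + 1 = q + y := ⟨x + t + 1 - q, by omega⟩
          have e1 : x + 2 + t - (q + 1) = y := by omega
          obtain ⟨z, hz⟩ : ∃ z, X + t = q + 1 + z := ⟨X + t - (q + 1), by omega⟩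
          have e4 : X + t - (q + 1) = z := by omega
          rw [e1, e4]
          have e3 : (x + 2) * q + 2 * y = x * q + 2 * (q + y) := by ring
          rw [e3, ← hy]
          have e5 : 2 * z + 2 * (q + 1) = 2 * (X + t) := by rw [hz]; ring
          nlinarith
        rw [e3] at hs
        refine Good.le ?_ (rest j (x + 2) _ _ (fun c => by split_ifs <;> omega) (by omega)
          (by omega) (len_of_count (by omega) (by omega) e3.symm hN2) (by omega))
        omega

/-- **Chains from a flat state with one further row.** -/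
theorem chainG [Infinite K] {r q ρ : ℕ} (hρ : ρ ≤ r * (q + 2).choose 2) :
    ∀ j x A u : ℕ, x + 2 * j = r → 1 ≤ x → q ≤ x → u + (q + 1) ≤ A →
      2 * ρ ≤ (q + 2) * (x * (q + 1) + 2 * A) + 2 * u →
      r * (q + 1) * q + 2 * (q + 1) ≤ (q + 2) * (x * (q + 1) + 2 * A) + 2 * u →
      Good K r (q + 1) (G x (q + 1) A u) ρ := by
  intro j
  induction j with
  | zero =>
    intro x A u hx _ _ _ _ _
    simp only [mul_zero, add_zero] at hx
    subst hx
    refine Good.le hρ (good_of_ge fun c hc => ?_)
    rw [G, if_pos (by omega)]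
    omega
  | succ j ih =>
    intro x A u hx h1 hq hA hN1 hN2
    apply nodal_move 1 (q + 1 + 1) (G_antitone (by omega))
    by_cases hu : q + 1 + 1 ≤ u
    · rw [nod_G_long (by omega) hu]
      have e2 : (q + 2) * ((x + 2) * (q + 1) + 2 * (A + 1 - (q + 1))) + 2 * (u - (q + 1 + 1))
          = (q + 2) * (x * (q + 1) + 2 * A) + 2 * u := by
        obtain ⟨s, rfl⟩ : ∃ s, A = q + s := ⟨A - q, by omega⟩
        obtain ⟨v, rfl⟩ : ∃ v, u = q + 2 + v := ⟨u - (q + 2), by omega⟩
        have e3 : q + s + 1 - (q + 1) = s := by omega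
        have e4 : q + 2 + v - (q + 1 + 1) = v := by omega
        rw [e3, e4]; ring
      apply ih (x + 2) (A + 1 - (q + 1)) (u - (q + 1 + 1)) (by omega) (by omega) (by omega)
        (by omega)
      · rw [e2]; exact hN1
      · rw [e2]; exact hN2
    · rw [nod_G_short (by omega) (by omega)]
      have e1 : F (x + 2) (q + 1) (A - (q + 1)) (fun c => if c < u then 1 else 0)
        = S (x + 2) (q + 1) (A - (q + 1)) u := rfl
      rw [e1]
      have e2 : (x + 2) * (q + 1) + 2 * (A - (q + 1)) = x * (q + 1) + 2 * A := by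
        obtain ⟨s, rfl⟩ : ∃ s, A = q + 1 + s := ⟨A - (q + 1), by omega⟩
        rw [Nat.add_sub_cancel_left]; ring
      apply chainS hρ j (x + 2) (A - (q + 1)) u (by omega) (by omega) (by omega) (by omega)
      · rw [e2]; exact hN1
      · rw [e2]; exact hN2

end Pool.Agent.Helper21.E6
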