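import Pool.Agent.Helper7.NM.Large
import Pool.Agent.Helper7.NM.Small
import Pool.Agent.Helper42.Canon

set_option autoImplicit false

/-! MP_e6aa12_ag, every characteristic: flat states and unit moves.

A flat state has the rows `x (q - c) + t + e c`, `c ≤ q`, with `e c ≤ 1`. -/

namespace Pool.Agent.Helper21.E6

open Pool.Agent.Helper41.Fat Pool.Agent.Helper42.Game Pool.Agent.Helper7.NM
open Pool.Agent.Helper7.Free

variable {K : Type*} [Field K]

/-- A flat state. -/
def F (x q t : ℕ) (e : ℕ → ℕ) (c : ℕ) : ℕ := if c ≤ q then x * (q - c) + t + e c else 0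

/-- Flat rows and one further row of length `u`. -/
def G (x q A u c : ℕ) : ℕ := if c ≤ q then x * (q - c) + A else if c = q + 1 then u else 0

theorem F_antitone {x q t : ℕ} {e : ℕ → ℕ} (hx : 1 ≤ x) (he : ∀ c, e c ≤ 1) :
    ∀ c c', c ≤ c' → c' ≤ q → F x q t e c' ≤ F x q t e c := by
  intro c c' h h'
  rw [F, F, if_pos h', if_pos (h.trans h')]
  rcases Nat.eq_or_lt_of_le h with h0 | h0
  · rw [h0]
  · have e1 : x * (q - c) = x * (q - c') + x * (c' - c) := by
      rw [← mul_add]; congr 1; omega
    have e2 : c' - c ≤ x * (c' - c) := Nat.le_mul_of_pos_left _ hx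
    have := he c'
    omega

theorem nod_flat {x q t : ℕ} {e : ℕ → ℕ} (hq : q ≤ t) :
    nod 1 q (F x q t e) = F (x + 2) q (t - q) e := by
  funext i
  by_cases hi : i ≤ q
  · rw [nod, if_pos hi, F, if_pos hi, F, if_pos hi, one_mul]
    have h1 : ∑ c ∈ Finset.Ioc i q, min (F x q t e c - i) 1 = q - i := by
      rw [Finset.sum_congr rfl (g := fun _ => 1)]
      · simp
      · intro c hc
        rw [Finset.mem_Ioc] at hc
        rw [F, if_pos hc.2]
        omega
    rw [h1]
    have e1 : (x + 2) * (q - i) = x * (q - i) + 2 * (q - i) := by ring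
    omega
  · rw [nod_of_lt _ (by omega), F, if_neg hi]

theorem G_antitone {x q A u : ℕ} (hu : u ≤ A) :
    ∀ c c', c ≤ c' → c' ≤ q + 1 → G x q A u c' ≤ G x q A u c := by
  intro c c' h h'
  rw [G, G]
  by_cases h1 : c' ≤ q
  · rw [if_pos h1, if_pos (h.trans h1)]
    have e1 : x * (q - c') ≤ x * (q - c) := Nat.mul_le_mul_left _ (by omega)
    omega
  · rw [if_neg h1, if_pos (by omega)]
    by_cases h2 : c ≤ q
    · rw [if_pos h2]
      omega
    · rw [if_neg h2, if_pos (by omega)]

theorem nod_G_long {x q A u : ℕ} (hA : q ≤ A) (hu : q + 1 ≤ u) :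
    nod 1 (q + 1) (G x q A u) = G (x + 2) q (A + 1 - q) (u - (q + 1)) := by
  funext i
  by_cases hi : i ≤ q
  · rw [nod, if_pos (by omega), G, if_pos hi, G, if_pos hi, one_mul]
    have h1 : ∑ c ∈ Finset.Ioc i (q + 1), min (G x q A u c - i) 1 = q + 1 - i := by
      rw [Finset.sum_congr rfl (g := fun _ => 1)]
      · simp
      · intro c hc
        rw [Finset.mem_Ioc] at hc
        rw [G]
        by_cases h : c ≤ q
        · rw [if_pos h]
          omega
        · rw [if_neg h, if_pos (by omega)]
          omega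
    rw [h1]
    have e1 : (x + 2) * (q - i) = x * (q - i) + 2 * (q - i) := by ring
    omega
  · rw [G, if_neg hi]
    by_cases h2 : i = q + 1
    · rw [nod, if_pos (by omega), if_pos h2, h2, Finset.Ioc_self, Finset.sum_empty, G,
        if_neg (by omega), if_pos rfl]
      omega
    · rw [nod_of_lt _ (by omega), if_neg h2]

theorem nod_G_short {x q A u : ℕ} (hA : q ≤ A) (hu : u ≤ q) :
    nod 1 (q + 1) (G x q A u) = F (x + 2) q (A - q) (fun c => if c < u then 1 else 0) := by
  funext i
  by_cases hi : i ≤ q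
  · rw [nod, if_pos (by omega), G, if_pos hi, F, if_pos hi, one_mul]
    have h0 : Finset.Ioc i (q + 1) = insert (q + 1) (Finset.Ioc i q) := by
      ext c
      simp only [Finset.mem_Ioc, Finset.mem_insert]
      omega
    have h1 : ∑ c ∈ Finset.Ioc i (q + 1), min (G x q A u c - i) 1
        = (if i < u then 1 else 0) + (q - i) := by
      rw [h0, Finset.sum_insert (by simp)]
      congr 1
      · rw [G, if_neg (by omega), if_pos rfl]
        split_ifs <;> omega
      · rw [Finset.sum_congr rfl (g := fun _ => 1)]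
        · simp
        · intro c hc
          rw [Finset.mem_Ioc] at hc
          rw [G, if_pos hc.2]
          omega
    rw [h1]
    have e1 : (x + 2) * (q - i) = x * (q - i) + 2 * (q - i) := by ring
    omega
  · rw [F, if_neg hi]
    by_cases h2 : i = q + 1
    · rw [nod, if_pos (by omega), h2, Finset.Ioc_self, Finset.sum_empty, G,
        if_neg (by omega), if_pos rfl]
      omega
    · rw [nod_of_lt _ (by omega)]

/-! ### The consumption of one row, by interval moves -/

theorem mem_low {x q t X c u : ℕ} (hc : c ≤ q) (h1 : (x + 1) * c ≤ u) (h2 : u < x * q + t) :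
    c ∈ act (x + 1) (q + 1) (Pool.Agent.Helper42.Canon.S x q t X) u := by
  rw [mem_act]
  have h3 := Pool.Agent.Helper42.Canon.S_end x q t X c hc
  refine ⟨by omega, h1, by omega⟩

theorem mem_high {x q t X w c : ℕ} (hq : q ≤ x + 1 + t)
    (h1 : (if w < X then w else w + 1) ≤ c) (h2 : c < if q ≤ t + w then q + 1 else q) :
    c ∈ act (x + 1) (q + 1) (Pool.Agent.Helper42.Canon.S x q t X) (x * q + t + w) := by
  rw [mem_act]
  have hcq : c ≤ q := by
    split_ifs at h2 <;> omega
  have h3 := Pool.Agent.Helper42.Canon.S_end x q t X c hcq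
  refine ⟨by omega, ?_, ?_⟩
  · rcases Nat.lt_or_ge c q with hlt | hge
    · have e : x * q = x * c + x * (q - c) := by rw [← mul_add]; congr 1; omega
      have e2 : (x + 1) * c = x * c + c := by ring
      have e3 : x * 1 ≤ x * (q - c) := Nat.mul_le_mul_left x (by omega)
      have e4 : x ≤ x * (q - c) := by simpa using e3
      rw [e2, e]
      have e5 : (q - c) - 1 ≤ x * (q - c) - x ∨ x = 0 := by
        rcases Nat.eq_zero_or_pos x with h | h
        · right; exact h
        · left
          obtain ⟨y, hy⟩ : ∃ y, q - c = y + 1 := ⟨q - c - 1, by omega⟩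
          rw [hy]
          have : x * (y + 1) = x * y + x := by ring
          have : y ≤ x * y := Nat.le_mul_of_pos_left y h
          omega
      omega
    · have : c = q := by omega
      subst this
      have h5 : c ≤ t + w := by
        by_contra hcon
        rw [if_neg hcon] at h2
        omega
      have e2 : (x + 1) * c = x * c + c := by ring
      omega
  · split_ifs at h3 h1 <;> omega

/-- One row disappears, few extra cells. -/
theorem stepB (x q t X : ℕ) (hq : q ≤ x + 1 + t) (hX : X + t + 1 ≤ q) :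
    StepI (x + 1) (Pool.Agent.Helper42.Canon.S x q t X)
      (F (x + 2) (q - 1) (x + 1 + t - q) (fun i => if i < t ∨ q ≤ X + i then 1 else 0)) := by
  refine ⟨q + 1, fun i => ⟨(x + 1) * i, le_rfl, fun u hu1 hu2 => ?_⟩⟩
  by_cases hi : i + 1 ≤ q
  · rw [F, if_pos (by omega)] at hu2
    have hlen : (x + 1) * i + ((x + 2) * (q - 1 - i) + (x + 1 + t - q)
        + (if i < t ∨ q ≤ X + i then 1 else 0))
        = x * q + t + (q - 1 - i) + (if i < t ∨ q ≤ X + i then 1 else 0) := by
      obtain ⟨j, rfl⟩ : ∃ j, q = i + j + 1 := ⟨q - 1 - i, by omega⟩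
      have e0 : i + j + 1 - 1 - i = j := by omega
      rw [e0]
      have e1 : (x + 1) * i = x * i + i := by ring
      have e2 : (x + 2) * j = x * j + 2 * j := by ring
      have e3 : x * (i + j + 1) = x * i + x * j + x := by ring
      omega
    rw [hlen] at hu2
    by_cases hlt : u < x * q + t
    · refine ⟨0, fun c _ hc => mem_low (by omega) ?_ hlt⟩
      have : (x + 1) * c ≤ (x + 1) * i := Nat.mul_le_mul_left _ (by omega)
      omega
    · obtain ⟨w, rfl⟩ : ∃ w, u = x * q + t + w := ⟨u - (x * q + t), by omega⟩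
      refine ⟨if w < X then w else w + 1, fun c h1 h2 => mem_high hq h1 ?_⟩
      split_ifs at h2 hu2 ⊢ <;> omega
  · rw [F, if_neg (by omega)] at hu2
    omega

/-- One row disappears, many extra cells. -/
theorem stepC (x q t X : ℕ) (hq : q ≤ x + 1 + t) (ht : t < q) (hXq : X ≤ q) (hX : q ≤ X + t) :
    StepI (x + 1) (Pool.Agent.Helper42.Canon.S x q t X)
      (F (x + 2) (q - 1) (x + 2 + t - q) (fun i => if q + 1 ≤ X + i ∧ i ≤ t then 1 else 0)) := by
  refine ⟨q + 1, fun i => ⟨(x + 1) * i, le_rfl, fun u hu1 hu2 => ?_⟩⟩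
  by_cases hi : i + 1 ≤ q
  · rw [F, if_pos (by omega)] at hu2
    have hlen : (x + 1) * i + ((x + 2) * (q - 1 - i) + (x + 2 + t - q)
        + (if q + 1 ≤ X + i ∧ i ≤ t then 1 else 0))
        = x * q + t + (q - i) + (if q + 1 ≤ X + i ∧ i ≤ t then 1 else 0) := by
      obtain ⟨j, rfl⟩ : ∃ j, q = i + j + 1 := ⟨q - 1 - i, by omega⟩
      have e0 : i + j + 1 - 1 - i = j := by omega
      rw [e0]
      have e1 : (x + 1) * i = x * i + i := by ring
      have e2 : (x + 2) * j = x * j + 2 * j := by ring
      have e3 : x * (i + j + 1) = x * i + x * j + x := by ring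
      omega
    rw [hlen] at hu2
    by_cases hlt : u < x * q + t
    · refine ⟨0, fun c _ hc => mem_low (by omega) ?_ hlt⟩
      have : (x + 1) * c ≤ (x + 1) * i := Nat.mul_le_mul_left _ (by omega)
      omega
    · obtain ⟨w, rfl⟩ : ∃ w, u = x * q + t + w := ⟨u - (x * q + t), by omega⟩
      refine ⟨if w < X then w else w + 1, fun c h1 h2 => mem_high hq h1 ?_⟩
      split_ifs at h2 hu2 ⊢ <;> omega
  · rw [F, if_neg (by omega)] at hu2
    omega

end Pool.Agent.Helper21.E6
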