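import Pool.Agent.Helper21.E6.Square

set_option autoImplicit false

/-! MP_e6aa12_ag, every characteristic: assembly. -/

namespace Pool.Agent.Helper21.E6

open Pool.Agent.Helper41.Fat Pool.Agent.Helper42.Game Pool.Agent.Helper7.NM
open Pool.Agent.Helper7.Free

variable {K : Type*} [Field K]

/-- The multiplicity one. -/
theorem good_one [Infinite K] (r d : ℕ) :
    Good K r 1 (fun b => d + 1 - b) (min ((d + 2).choose 2) (r * (1 + 1).choose 2)) := by
  apply nodal_move (d + 1) (d + 1) (fun c c' h _ => stair_antitone d h)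
  have hf := Good.final (K := K) r 1 (nod (d + 1) (d + 1) (fun b => d + 1 - b))
  refine Good.le ?_ hf
  have h1 : nod (d + 1) (d + 1) (fun b => d + 1 - b) 0 = (d + 2).choose 2 := by
    rw [nod, if_pos (Nat.zero_le _), mul_zero, ← sum_stair (d + 1), Finset.sum_range_succ']
    have h2 : ∑ c ∈ Finset.Ioc 0 (d + 1), min (d + 1 - c - 0) (d + 1)
        = ∑ c ∈ Finset.range (d + 1), (d + 1 - (c + 1)) := by
      rw [nodAux_Ioc]
      refine Finset.sum_congr rfl fun c _ => ?_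
      omega
    rw [h2, Finset.sum_range_succ]
    omega
  rw [Finset.sum_range_one, h1]
  simp

/-- The choice of `a` for squares. -/
theorem exists_square {s m : ℕ} (hm : 2 ≤ m) (hs : 2 * m + 2 ≤ s) : ∃ a k, a ^ 2 + 2 * k = s ^ 2 ∧
    a ^ 2 * (m + 1) + a ≤ s ^ 2 * m ∧ s ^ 2 * m ≤ a ^ 2 * (m + 3) ∧ 2 * m ≤ a * (a + 1) ∧
    2 ≤ a := by
  classical
  have hex : ∃ j, (s - 2 * j) ^ 2 * (m + 1) + (s - 2 * j) ≤ s ^ 2 * m := by
    refine ⟨s, ?_⟩
    have : s - 2 * s = 0 := by omega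
    rw [this]
    simp
  have hj := Nat.find_spec hex
  set j := Nat.find hex with hjdef
  have hj0 : j ≠ 0 := by
    intro h0
    rw [h0] at hj
    simp only [mul_zero, Nat.sub_zero] at hj
    nlinarith
  have hjm : ¬ ((s - 2 * (j - 1)) ^ 2 * (m + 1) + (s - 2 * (j - 1)) ≤ s ^ 2 * m) :=
    Nat.find_min hex (by omega)
  have hjs : 2 * (j - 1) < s := by
    by_contra hcon
    apply hjm
    have : s - 2 * (j - 1) = 0 := by omega
    rw [this]
    simp
  have hjs2 : 2 * (j - 1) + 1 < s := by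
    by_contra hcon
    apply hjm
    have : s - 2 * (j - 1) = 1 := by omega
    rw [this]
    nlinarith
  obtain ⟨a, ha⟩ : ∃ a, s = a + 2 * j := ⟨s - 2 * j, by omega⟩
  have e1 : s - 2 * j = a := by omega
  have e2 : s - 2 * (j - 1) = a + 2 := by omega
  rw [e1] at hj
  rw [e2] at hjm
  have key : s ^ 2 * m ≤ a ^ 2 * (m + 3) := by
    by_contra hcon
    push Not at hcon hjm
    by_cases hj1 : j = 1
    · rw [hj1] at ha
      subst ha
      have h1 : 2 * m ≤ a := by omega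
      nlinarith
    · have h4 : a + 4 ≤ s := by omega
      have h5 : (a + 4) ^ 2 * m ≤ s ^ 2 * m := Nat.mul_le_mul_right _ (Nat.pow_le_pow_left h4 2)
      have h6 : (4 * a + 12) * m ≤ a ^ 2 + 5 * a + 5 := by nlinarith
      have h7 : 4 * m ≤ a + 1 := by
        by_contra h8
        have h9 : a + 2 ≤ 4 * m := by omega
        nlinarith
      have h8 : 2 * a ^ 2 ≤ (4 * a + 4) * (m + 1) + a := by nlinarith
      have h9 : a ^ 2 ≤ 7 * a + 5 := by nlinarith
      have h10 : a ≤ 7 := by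
        by_contra h11
        have : 8 ≤ a := by omega
        nlinarith
      have h11 : m = 2 := by omega
      subst h11
      have h12 : a = 7 := by omega
      subst h12
      have h13 : s ≤ 11 ∨ 12 ≤ s := by omega
      rcases h13 with h13 | h13
      · have : s ^ 2 ≤ 11 ^ 2 := Nat.pow_le_pow_left h13 2
        omega
      · have : 12 ^ 2 ≤ s ^ 2 := Nat.pow_le_pow_left h13 2
        omega
  have hss : (2 * m + 2) ^ 2 * m ≤ a ^ 2 * (m + 3) :=
    (Nat.mul_le_mul_right _ (Nat.pow_le_pow_left hs 2)).trans key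
  refine ⟨a, 2 * j * (a + j), ?_, hj, key, ?_, ?_⟩
  · rw [ha]; ring
  · by_contra hcon
    push Not at hcon
    have h1 : a ^ 2 ≤ 2 * m := by nlinarith
    have h2 : a ^ 2 * (m + 3) ≤ 2 * m * (m + 3) := Nat.mul_le_mul_right _ h1
    nlinarith
  · by_contra hcon
    have h1 : a ^ 2 ≤ 1 ^ 2 := Nat.pow_le_pow_left (by omega) 2
    have h2 : a ^ 2 * (m + 3) ≤ 1 ^ 2 * (m + 3) := Nat.mul_le_mul_right _ h1
    nlinarith

/-- The choice of `a` for large `r`. -/
theorem exists_large {r m : ℕ} (hm : 2 ≤ m) (hr : 4 * (m + 4) ^ 2 ≤ r) : ∃ a k,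
    a ^ 2 + 2 * k = r ∧ a ^ 2 * (m + 1) + a ≤ r * m ∧ r * m ≤ a ^ 2 * (m + 3) ∧
    2 * m ≤ a * (a + 1) ∧ 2 ≤ a := by
  classical
  obtain ⟨p, hp, r', hr'⟩ : ∃ p ≤ 1, ∃ r', r = 2 * r' + p := ⟨r % 2, by omega, r / 2, by omega⟩
  let f : ℕ → ℕ := fun j => 2 * (m + 2 + j) + p
  have hex : ∃ j, ¬ ((f (j + 1)) ^ 2 * (m + 1) + f (j + 1) ≤ r * m) := by
    refine ⟨r, ?_⟩
    have h1 : r ≤ f (r + 1) := by simp only [f]; omega
    have h2 : 1 ≤ f (r + 1) := by simp only [f]; omega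
    intro h3
    have h4 : r * m ≤ (f (r + 1)) ^ 2 * (m + 1) := by
      have : r ≤ (f (r + 1)) ^ 2 := by nlinarith
      exact Nat.mul_le_mul this (by omega)
    omega
  have hj := Nat.find_spec hex
  set j := Nat.find hex with hjdef
  have hP : (f j) ^ 2 * (m + 1) + f j ≤ r * m := by
    by_cases h0 : j = 0
    · rw [h0]
      simp only [f, add_zero]
      have h1 : 4 * (m + 4) ^ 2 * m ≤ r * m := Nat.mul_le_mul_right _ hr
      have h2 : 2 * (m + 2) + p ≤ 2 * m + 5 := by omega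
      have h3 : (2 * (m + 2) + p) ^ 2 ≤ (2 * m + 5) ^ 2 := Nat.pow_le_pow_left h2 2
      have h4 : (2 * (m + 2) + p) ^ 2 * (m + 1) ≤ (2 * m + 5) ^ 2 * (m + 1) :=
        Nat.mul_le_mul_right _ h3
      nlinarith
    · have h1 := Nat.find_min hex (m := j - 1) (by omega)
      rw [not_not] at h1
      have e : j - 1 + 1 = j := by omega
      rwa [e] at h1
  push Not at hj
  have hf : f (j + 1) = f j + 2 := by simp only [f]; ring
  rw [hf] at hj
  have hfa : 2 * m + 4 ≤ f j := by simp only [f]; omega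
  obtain ⟨i, hi⟩ : ∃ i, f j = 2 * i + p := ⟨m + 2 + j, rfl⟩
  generalize f j = a at hP hj hfa hi
  have key : r * m ≤ a ^ 2 * (m + 3) := by
    have h1 : (4 * a + 4) * (m + 1) + a + 1 ≤ 2 * a ^ 2 := by
      obtain ⟨b, rfl⟩ : ∃ b, a = 2 * m + 4 + b := ⟨a - (2 * m + 4), by omega⟩
      nlinarith
    nlinarith
  have hle : a ^ 2 ≤ r := by
    by_contra hcon
    have : r * m ≤ a ^ 2 * (m + 1) := Nat.mul_le_mul (by omega) (by omega)
    omega
  refine ⟨a, (r - a ^ 2) / 2, ?_, hP, key, ?_, by omega⟩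
  · have h1 : a ^ 2 = 2 * (2 * i ^ 2 + 2 * i * p) + p ^ 2 := by rw [hi]; ring
    have h2 : p ^ 2 = p := by
      rcases Nat.le_one_iff_eq_zero_or_eq_one.1 hp with h | h <;> rw [h] <;> norm_num
    rw [h2] at h1
    omega
  · nlinarith

theorem good_small_square [Infinite K] {s m d : ℕ} (hm : 1 ≤ m) (hs : 2 * m + 2 ≤ s) :
    Good K (s ^ 2) m (fun b => d + 1 - b)
      (min ((d + 2).choose 2) (s ^ 2 * (m + 1).choose 2)) := by
  by_cases h1 : m = 1
  · subst h1
    exact good_one _ _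
  · obtain ⟨a, k, hk, h2, h3, h4, h5⟩ := exists_square (m := m) (s := s) (by omega) hs
    exact good_window hm h5 hk h2 h3 h4 d

/-- **Squares.** -/
theorem good_square [Infinite K] {s m d : ℕ} (hs : 1 ≤ s) (hm : 1 ≤ m)
    (h : 2 * (d + 2) ≠ s * (2 * m + 1) ∨ 2 * m + 2 ≤ s ∨ s ≤ 12) :
    Good K (s ^ 2) m (fun b => d + 1 - b)
      (min ((d + 2).choose 2) (s ^ 2 * (m + 1).choose 2)) := by
  by_cases h1 : d < m * s
  · exact Good.le (min_le_left _ _) (square_empty hs h1)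
  · obtain ⟨D, hD⟩ : ∃ D, d = m * s + D := ⟨d - m * s, by omega⟩
    have e1 : s * m = m * s := mul_comm _ _
    by_cases h2 : s ≤ 2 * D + 3
    · exact Good.le (min_le_right _ _) (square_regular hs (by omega))
    · by_cases h3 : 2 * m + 2 ≤ s
      · exact good_small_square hm h3
      · have e2 : s * (2 * m + 1) = 2 * (m * s) + s := by ring
        obtain ⟨q, rfl⟩ : ∃ q, s = q + 1 := ⟨s - 1, by omega⟩
        exact Good.le (min_le_left _ _)
          (square_mid (D := D) (by omega) (by omega) (by omega) hD)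

/-- **Main theorem on germs.** -/
theorem main [Infinite K] {r m d : ℕ} (hm : 1 ≤ m)
    (h : 4 * (m + 4) ^ 2 ≤ r ∨
      (∃ s, r = s ^ 2 ∧ 1 ≤ s ∧ (2 * (d + 2) ≠ s * (2 * m + 1) ∨ 2 * m + 2 ≤ s ∨ s ≤ 12)) ∨
      (∃ a k, 2 ≤ a ∧ r = a ^ 2 + 2 * k ∧ a ^ 2 + a ≤ 2 * k * m ∧ 2 * k * m ≤ 3 * a ^ 2 ∧
        2 * m ≤ a * (a + 1))) :
    Good K r m (fun b => d + 1 - b) (min ((d + 2).choose 2) (r * (m + 1).choose 2)) := by
  rcases h with h | ⟨s, rfl, hs, h⟩ | ⟨a, k, ha, rfl, h1, h2, h3⟩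
  · by_cases h1 : m = 1
    · subst h1
      exact good_one _ _
    · obtain ⟨a, k, hk, h2, h3, h4, h5⟩ := exists_large (m := m) (r := r) (by omega) h
      exact good_window hm h5 hk h2 h3 h4 d
  · exact good_square hs hm h
  · refine good_window hm ha rfl ?_ ?_ h3 d
    · have : (a ^ 2 + 2 * k) * m = a ^ 2 * m + 2 * k * m := by ring
      have e : a ^ 2 * (m + 1) = a ^ 2 * m + a ^ 2 := by ring
      omega
    · have : (a ^ 2 + 2 * k) * m = a ^ 2 * m + 2 * k * m := by ring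
      have e : a ^ 2 * (m + 3) = a ^ 2 * m + 3 * a ^ 2 := by ring
      omega

end Pool.Agent.Helper21.E6
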