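import Pool.Agent.Helper21.E6.Window

set_option autoImplicit false

/-! MP_e6aa12_ag, every characteristic: squares `r = s ^ 2`. -/

namespace Pool.Agent.Helper21.E6

open Pool.Agent.Helper41.Fat Pool.Agent.Helper42.Game Pool.Agent.Helper7.NM
open Pool.Agent.Helper7.Free

variable {K : Type*} [Field K]

theorem strip_antitone {a : ℕ} (ha : 0 < a) (d : ℕ) : Antitone (strip a d) := by
  have h : nod (a - 1) d (fun b => d + 1 - b) = strip a d := funext (fun i => nod_stair ha d i)
  rw [← h]
  exact nod_antitone (stair_antitone d)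

theorem square_regular [Infinite K] {s m d : ℕ} (hs : 1 ≤ s) (h : 2 * (s * m) + s ≤ 2 * d + 3) :
    Good K (s ^ 2) m (fun b => d + 1 - b) (s ^ 2 * (m + 1).choose 2) := by
  apply good_stripF s d (by omega)
  apply good_of_ge
  intro c hc
  obtain ⟨j, rfl⟩ : ∃ j, m = c + 1 + j := ⟨m - (c + 1), by omega⟩
  have e1 : s * (c + 1 + j) = s * (c + 1) + s * j := by ring
  rw [strip_full s d c (by omega)]
  obtain ⟨e, he⟩ : ∃ e, d + 1 = s * (c + 1 + j) + e := ⟨d + 1 - s * (c + 1 + j), by omega⟩
  have e2 : d + 1 - s * (c + 1) = s * j + e := by omega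
  have e3 : c + 1 + j - c = j + 1 := by omega
  have h2 := two_mul_choose s
  have h3 : s ≤ 2 * e + 1 := by omega
  rw [e2, e3]
  have h4 : s * s ≤ s * (2 * e + 1) := Nat.mul_le_mul_left _ h3
  have e4 : s ^ 2 * (j + 1) = s * (s * j) + s * s := by ring
  have e5 : s * (s * j + e) = s * (s * j) + s * e := by ring
  have e6 : s * (2 * e + 1) = 2 * (s * e) + s := by ring
  have e7 : s * (s + 1) = s * s + s := by ring
  omega

theorem square_empty [Infinite K] {s m d : ℕ} (hs : 1 ≤ s) (h : d < m * s) :
    Good K (s ^ 2) m (fun b => d + 1 - b) ((d + 2).choose 2) := by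
  apply good_stripF s d (by omega)
  rw [← sum_strip_total s d m (by omega)]
  apply good_of_le _ _ le_rfl
  · intro c hc
    exact strip_le s d m c (by omega) h
  · intro c hc
    apply strip_zero
    have : m * s ≤ c * s := Nat.mul_le_mul_right _ hc
    omega

/-- The small even squares. -/
theorem small_fix {q t i P : ℕ} (hq : q ≤ 11) (hodd : q % 2 = 1) (ht : t < q) (hP : P ≤ q)
    (h : 2 * P + 2 * (q * i) ≤ t * (t + 1)) : 2 * i + 2 * P ≤ 2 * t + q + 1 := by
  interval_cases q <;> first | omega | (interval_cases t <;> omega)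

/-- The rows `i < m` after the nodal move of degree `q`. -/
theorem mid_row {q m D i c t P : ℕ} (hD : 2 * D + 3 ≤ q) (hD2 : 2 * D + 4 ≤ q ∨ q ≤ 11)
    (hi : i < m) (hy : m * (q + 1) + D + 1 = q * c + t) (ht : t < q) (hic : i < c) {n V S : ℕ}
    (hV : V + 2 * ((q + 1) * i) + (q - 1) = 2 * (m * (q + 1) + D + 1))
    (hn : 2 * n = q * V) (hS1 : S ≤ q * (c - 1 - i)) (hS2 : 2 * S + 1 ≤ V)
    (hP1 : P ≤ q) (hP2 : 2 * P ≤ t * (t + 1) - 2 * (q * i)) :
    n + (P + S) ≤ (q + 1) ^ 2 * (m - i) := by
  obtain ⟨w, rfl⟩ : ∃ w, m = i + w := ⟨m - i, by omega⟩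
  obtain ⟨l, rfl⟩ : ∃ l, c = i + 1 + l := ⟨c - 1 - i, by omega⟩
  obtain ⟨H, hH⟩ : ∃ H, q = 2 * D + 3 + H := ⟨q - (2 * D + 3), by omega⟩
  have e1 : i + 1 + l - 1 - i = l := by omega
  have e2 : i + w - i = w := by omega
  rw [e1] at hS1
  rw [e2]
  have hVe : (V : ℤ) = 2 * ((q : ℤ) + 1) * w - H := by
    have e4 : (i + w) * (q + 1) = (q + 1) * i + (q + 1) * w := by ring
    have e5 : V + 2 * ((q + 1) * i) + (q - 1) = 2 * ((q + 1) * i + (q + 1) * w + D + 1) := by
      rw [hV, e4]
    have e6 : V + (q - 1) = 2 * ((q + 1) * w) + 2 * D + 2 := by omega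
    have e7 : V + H = 2 * ((q + 1) * w) := by omega
    zify at e7
    linarith
  have e3 : t * (t + 1) ≤ 2 * (q * i) ∨ 2 * P + 2 * (q * i) ≤ t * (t + 1) := by omega
  by_cases hH0 : H = 0
  · have e8 : 2 * P + 2 * (q * i) ≤ t * (t + 1) → 2 * i + 2 * P ≤ 2 * t + q + 1 := fun h =>
      small_fix (by omega) (by omega) ht hP1 h
    subst hH0
    zify at hn hS1 hS2 hP1 ht hy hH ⊢
    rcases e3 with h0 | hP3
    · have hP0 : P = 0 := by omega
      subst hP0
      have h1 : 2 * ((n : ℤ) + S) ≤ q * V + V - 1 := by linarith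
      rw [hVe] at h1
      push_cast
      push_cast at h1
      linarith
    · have e9 := e8 hP3
      zify at e9
      rw [hVe] at hn
      push_cast at hn
      linarith
  · have hH1 : 1 ≤ H := Nat.one_le_iff_ne_zero.2 hH0
    zify at hn hS1 hS2 hP1 ht hy hH hH1 ⊢
    rcases e3 with h0 | hP3
    · have hP0 : P = 0 := by omega
      subst hP0
      have h1 : 2 * ((n : ℤ) + S) ≤ q * V + V - 1 := by linarith
      rw [hVe] at h1
      have h2 : (0 : ℤ) ≤ (q + 1) * H := by positivity
      push_cast
      linarith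
    · zify at hP3
      rw [hVe] at hn
      by_cases h1 : 2 * (i : ℤ) ≤ ((q : ℤ) + 1) * H + 2 * t - q + 1
      · linarith
      · push Not at h1
        have h3 : (0 : ℤ) ≤ ((q : ℤ) - 1) *
            (2 * (i : ℤ) - (((q : ℤ) + 1) * H + 2 * t - q + 1)) := by
          apply mul_nonneg
          · linarith
          · linarith
        have h4 : (0 : ℤ) ≤ (q : ℤ) * (q + 1) * (H - 1) := by
          apply mul_nonneg (by positivity)
          linarith
        have h5 : (0 : ℤ) ≤ (t : ℤ) * (2 * q - t) := by
          apply mul_nonneg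
          · positivity
          · linarith
        linarith

/-- Full rows of `strip q`. -/
theorem strip_full_two {q d c : ℕ} (hq : 1 ≤ q) (h : q * (c + 1) ≤ d + 1) :
    2 * strip q d c + q * (2 * (q * c) + (q - 1)) = q * (2 * (d + 1)) := by
  rw [strip_full q d c h]
  obtain ⟨e, he⟩ : ∃ e, d + 1 = q * (c + 1) + e := ⟨d + 1 - q * (c + 1), by omega⟩
  have e1 : d + 1 - q * (c + 1) = e := by omega
  obtain ⟨p, rfl⟩ : ∃ p, q = p + 1 := ⟨q - 1, by omega⟩
  have h2 := two_mul_choose (p + 1)
  rw [e1, he, mul_add, h2, Nat.add_sub_cancel]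
  ring

/-- The sum over the full rows above the row `i`. -/
theorem sum_full {q d c1 i V : ℕ} (hq : 1 ≤ q) (hc1 : q * (c1 + 1) ≤ d + 1)
    (hV : V + 2 * ((q + 1) * i) + (q - 1) = 2 * (d + 1)) (hV1 : 1 ≤ V) :
    ∑ c ∈ Finset.Ioc i c1, min (strip q d c - q * i) q ≤ q * (c1 - i) ∧
      2 * (∑ c ∈ Finset.Ioc i c1, min (strip q d c - q * i) q) + 1 ≤ V := by
  constructor
  · calc ∑ c ∈ Finset.Ioc i c1, min (strip q d c - q * i) q ≤ ∑ _c ∈ Finset.Ioc i c1, q :=
        Finset.sum_le_sum fun c _ => min_le_right _ _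
      _ = q * (c1 - i) := by rw [Finset.sum_const, Nat.card_Ioc, smul_eq_mul, mul_comm]
  · -- only the rows `c` with `2 q (c - i) + 1 ≤ V` contribute
    have h1 : ∑ c ∈ Finset.Ioc i c1, min (strip q d c - q * i) q
        ≤ ∑ c ∈ Finset.Ioc i (i + (V - 1) / (2 * q)), q := by
      calc ∑ c ∈ Finset.Ioc i c1, min (strip q d c - q * i) q
          = ∑ c ∈ (Finset.Ioc i c1).filter (fun c => q * i < strip q d c),
              min (strip q d c - q * i) q := by
            rw [Finset.sum_filter]
            refine Finset.sum_congr rfl fun c _ => ?_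
            split_ifs with h
            · rfl
            · have : strip q d c - q * i = 0 := by omega
              rw [this]; simp
        _ ≤ ∑ c ∈ (Finset.Ioc i c1).filter (fun c => q * i < strip q d c), q :=
            Finset.sum_le_sum fun c _ => min_le_right _ _
        _ ≤ ∑ c ∈ Finset.Ioc i (i + (V - 1) / (2 * q)), q := by
            apply Finset.sum_le_sum_of_subset
            intro c hc
            rw [Finset.mem_filter, Finset.mem_Ioc] at hc
            rw [Finset.mem_Ioc]
            refine ⟨hc.1.1, ?_⟩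
            obtain ⟨l, rfl⟩ : ∃ l, c = i + l := ⟨c - i, by omega⟩
            have h2 : l ≤ (V - 1) / (2 * q) := by
              rw [Nat.le_div_iff_mul_le (by omega)]
              have h3 : q * (i + l + 1) ≤ q * (c1 + 1) := Nat.mul_le_mul_left _ (by omega)
              have h4 := strip_full_two (c := i + l) hq (h3.trans hc1)
              have h5 : q * (2 * i + (2 * (q * (i + l)) + (q - 1))) < q * (2 * (d + 1)) := by
                have e : q * (2 * i + (2 * (q * (i + l)) + (q - 1)))
                  = 2 * (q * i) + q * (2 * (q * (i + l)) + (q - 1)) := by ring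
                have := hc.2
                omega
              have h6 := Nat.lt_of_mul_lt_mul_left h5
              have e2 : q * (i + l) = q * i + q * l := by ring
              have e3 : (q + 1) * i = q * i + i := by ring
              have e4 : l * (2 * q) = 2 * (q * l) := by ring
              omega
            omega
    have h2 : ∑ c ∈ Finset.Ioc i (i + (V - 1) / (2 * q)), q = (V - 1) / (2 * q) * q := by
      rw [Finset.sum_const, Nat.card_Ioc, smul_eq_mul, Nat.add_sub_cancel_left]
    have h3 : (V - 1) / (2 * q) * (2 * q) ≤ V - 1 := Nat.div_mul_le_self _ _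
    have e4 : (V - 1) / (2 * q) * (2 * q) = 2 * ((V - 1) / (2 * q) * q) := by ring
    omega

/-- The degrees `d = m s + D`, `2 D + 5 ≤ s`, also `2 D + 4 = s` if `s ≤ 12`. -/
theorem square_mid [Infinite K] {q m D d : ℕ} (hD : 2 * D + 3 ≤ q)
    (hD2 : 2 * D + 4 ≤ q ∨ q ≤ 11) (hm : q ≤ 2 * m + 1)
    (hd : d = m * (q + 1) + D) :
    Good K ((q + 1) ^ 2) m (fun b => d + 1 - b) ((d + 2).choose 2) := by
  apply good_stripF q d (by omega)
  obtain ⟨c, t, ht, hct⟩ : ∃ c t, t < q ∧ d + 1 = q * c + t :=
    ⟨(d + 1) / q, (d + 1) % q, Nat.mod_lt _ (by omega), (Nat.div_add_mod _ _).symm⟩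
  have hanti := strip_antitone (a := q) (by omega) d
  apply nodal_move q c (fun c c' h _ => hanti h)
  have hmc : m ≤ c := by
    by_contra hcon
    have h1 : q * (c + 1) ≤ q * m := Nat.mul_le_mul_left _ (by omega)
    have e1 : q * (c + 1) = q * c + q := by ring
    have e2 : m * (q + 1) = q * m + m := by ring
    omega
  have e0 : (c + 1) * q = q * c + q := by ring
  have hsum := nod_sum q c (strip q d)
  rw [sum_strip_total q d (c + 1) (by omega)] at hsum
  rw [← hsum]
  -- the row `m`
  have hrow : strip q d m ≤ q * m := by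
    by_cases hfull : q * (m + 1) ≤ d + 1
    · have h1 := strip_full_two (c := m) (by omega) hfull
      have h2 : 2 * strip q d m + q * (2 * (q * m) + (q - 1)) ≤
          q * (2 * m) + q * (2 * (q * m) + (q - 1)) := by
        rw [h1, ← mul_add]
        apply Nat.mul_le_mul_left
        have e2 : m * (q + 1) = q * m + m := by ring
        omega
      have e3 : q * (2 * m) = 2 * (q * m) := by ring
      omega
    · have e2 : m * (q + 1) = q * m + m := by ring
      rw [strip_part q d m (by omega) (by omega)]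
      have h1 := two_mul_choose (d + 1 - q * m)
      have e3 : q * (m + 1) = q * m + q := by ring
      have h2 : (d + 1 - q * m) * (d + 1 - q * m + 1) ≤ (2 * m) * q :=
        Nat.mul_le_mul (by omega) (by omega)
      have e4 : 2 * m * q = 2 * (q * m) := by ring
      omega
  apply good_of_le
  · intro i hi
    have hic : i < c := by omega
    have hsplit : Finset.Ioc i c = insert c (Finset.Ioc i (c - 1)) := by
      ext x
      simp only [Finset.mem_Ioc, Finset.mem_insert]
      omega
    rw [nod, if_pos hic.le, hsplit, Finset.sum_insert (by simp only [Finset.mem_Ioc]; omega)]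
    obtain ⟨V, hV⟩ : ∃ V, V + 2 * ((q + 1) * i) + (q - 1) = 2 * (d + 1) := by
      refine ⟨2 * (d + 1) - (q - 1) - 2 * ((q + 1) * i), ?_⟩
      have h1 : (q + 1) * (i + 1) ≤ (q + 1) * m := Nat.mul_le_mul_left _ (by omega)
      have e2 : (q + 1) * (i + 1) = (q + 1) * i + (q + 1) := by ring
      have e3 : m * (q + 1) = (q + 1) * m := by ring
      omega
    have hV1 : 1 ≤ V := by
      have h1 : (q + 1) * (i + 1) ≤ (q + 1) * m := Nat.mul_le_mul_left _ (by omega)
      have e2 : (q + 1) * (i + 1) = (q + 1) * i + (q + 1) := by ring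
      have e3 : m * (q + 1) = (q + 1) * m := by ring
      omega
    have hc1 : q * (c - 1 + 1) ≤ d + 1 := by
      have : c - 1 + 1 = c := by omega
      rw [this]
      omega
    obtain ⟨hS1, hS2⟩ := sum_full (c1 := c - 1) (i := i) (by omega) hc1 hV hV1
    refine mid_row (D := D) (c := c) (t := t) (V := V) hD hD2 hi (by omega) ht hic ?_ ?_ hS1 hS2
      (min_le_right _ _) ?_
    · rw [hV, hd]
    · have h1 : q * (i + 1) ≤ q * c := Nat.mul_le_mul_left _ (by omega)
      have h4 : q * c ≤ d + 1 := by omega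
      have h2 := strip_full_two (q := q) (c := i) (by omega) (h1.trans h4)
      have h3 : q * V + (2 * (q * i) + q * (2 * (q * i) + (q - 1))) = q * (2 * (d + 1)) := by
        rw [← hV]; ring
      omega
    · have h1 : strip q d c = (t + 1).choose 2 := by
        have e3 : q * (c + 1) = q * c + q := by ring
        rw [strip_part q d c (by omega) (by omega)]
        congr 1
        omega
      have h2 := two_mul_choose t
      have h3 : min (strip q d c - q * i) q ≤ strip q d c - q * i := min_le_left _ _
      rw [h1] at h3 ⊢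
      omega
  · intro i hi
    apply unit_nod_zero hanti
    have h1 : strip q d i ≤ strip q d m := hanti hi
    have h2 : q * m ≤ q * i := Nat.mul_le_mul_left _ hi
    omega
  · omega

end Pool.Agent.Helper21.E6
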