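import Pool.Agent.Helper21.E6.Chain
import Pool.Agent.Helper41.FatMainTwo

set_option autoImplicit false

/-! MP_e6aa12_ag, every characteristic: the start `strip a` and the window theorem. -/

namespace Pool.Agent.Helper21.E6

open Pool.Agent.Helper41.Fat Pool.Agent.Helper42.Game Pool.Agent.Helper7.NM
open Pool.Agent.Helper7.Free

variable {K : Type*} [Field K]

theorem strip_full (L d c : ℕ) (h : L * (c + 1) ≤ d + 1) :
    strip L d c = L * (d + 1 - L * (c + 1)) + (L + 1).choose 2 := by
  obtain ⟨e, he⟩ : ∃ e, d + 1 = L * (c + 1) + e := ⟨d + 1 - L * (c + 1), by omega⟩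
  have h1 : strip L d c = ∑ s ∈ Finset.range L, (e + (L - s)) := by
    apply Finset.sum_congr rfl
    intro s hs
    rw [Finset.mem_range] at hs
    have e1 : L * (c + 1) = c * L + L := by ring
    omega
  have h2 : d + 1 - L * (c + 1) = e := by omega
  rw [h1, h2, Finset.sum_add_distrib, sum_stair, Finset.sum_const, Finset.card_range, smul_eq_mul]

theorem strip_part (L d c : ℕ) (h1 : L * c ≤ d + 1) (h2 : d + 1 ≤ L * (c + 1)) :
    strip L d c = (d + 1 - L * c + 1).choose 2 := by
  obtain ⟨t, ht⟩ : ∃ t, d + 1 = L * c + t := ⟨d + 1 - L * c, by omega⟩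
  have e1 : L * (c + 1) = L * c + L := by ring
  have e2 : c * L = L * c := mul_comm _ _
  have h3 : d + 1 - L * c = t := by omega
  rw [h3, ← sum_stair]
  have h4 : strip L d c = ∑ s ∈ Finset.range L, (t - s) := by
    apply Finset.sum_congr rfl
    intro s _
    omega
  rw [h4]
  symm
  apply Finset.sum_subset (Finset.range_subset_range.2 (by omega))
  intro s _ hs
  rw [Finset.mem_range] at hs
  omega

theorem strip_eq_G {a d q t : ℕ} (hd : d + 1 = a * (q + 2) + t) (ht : t ≤ a) :
    strip a d = G (a ^ 2) (q + 1) (a * t + (a + 1).choose 2) ((t + 1).choose 2) := by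
  funext c
  by_cases h1 : c ≤ q + 1
  · obtain ⟨j, hj⟩ : ∃ j, q + 1 = c + j := ⟨q + 1 - c, by omega⟩
    have e1 : a * (q + 2) = a * (c + 1) + a * j := by
      rw [← mul_add]; congr 1; omega
    rw [strip_full a d c (by omega), G, if_pos h1]
    have e2 : d + 1 - a * (c + 1) = a * j + t := by omega
    have e3 : q + 1 - c = j := by omega
    rw [e2, e3]
    ring
  · by_cases h2 : c = q + 1 + 1
    · have e1 : a * c = a * (q + 2) := by rw [h2]
      have e2 : a * (c + 1) = a * (q + 2) + a := by rw [h2]; ring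
      rw [strip_part a d c (by omega) (by omega), G, if_neg h1, if_pos h2]
      congr 1
      omega
    · have e1 : a * (q + 3) ≤ a * c := Nat.mul_le_mul_left _ (by omega)
      have e2 : a * (q + 3) = a * (q + 2) + a := by ring
      rw [strip_zero a d c (by rw [mul_comm c a]; omega), G, if_neg h1, if_neg h2]

theorem start_good [Infinite K] {r q a k t d : ℕ} (ha : 1 ≤ a) (hr : a ^ 2 + 2 * k = r)
    (ht : t ≤ a) (hd : d + 1 = a * (q + 2) + t) (hqa : 2 * (q + 1) ≤ a * (a + 1))
    (hN : r * (q + 1) * q + 2 * (q + 1) ≤ (d + 1) * (d + 2)) :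
    Good K r (q + 1) (fun b => d + 1 - b)
      (min ((d + 2).choose 2) (r * (q + 1 + 1).choose 2)) := by
  apply good_stripF a d (by omega)
  rw [strip_eq_G hd ht]
  have h1 := two_mul_choose a
  have h2 := two_mul_choose t
  have h3 := two_mul_choose (d + 1)
  have e : (q + 2) * (a ^ 2 * (q + 1) + 2 * (a * t + (a + 1).choose 2)) + 2 * (t + 1).choose 2
      = (d + 1) * (d + 2) := by
    have e1 : (q + 2) * (a ^ 2 * (q + 1) + 2 * (a * t + (a + 1).choose 2)) + 2 * (t + 1).choose 2
      = (q + 2) * (a ^ 2 * (q + 1) + (2 * (a * t) + 2 * (a + 1).choose 2))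
        + 2 * (t + 1).choose 2 := by ring
    have e2 : d + 2 = a * (q + 2) + t + 1 := by omega
    rw [e1, h1, h2, hd, e2]
    ring
  have hqa2 : q ≤ a ^ 2 := by nlinarith
  refine chainG (ρ := min ((d + 2).choose 2) (r * (q + 1 + 1).choose 2)) (min_le_right _ _) k
    (a ^ 2) _ _ hr (by nlinarith) hqa2 ?_ ?_ ?_
  · have h4 : t * (t + 1) ≤ 2 * (a * t) := by
      have : t * (t + 1) ≤ t * (2 * a) := Nat.mul_le_mul_left _ (by omega)
      calc t * (t + 1) ≤ t * (2 * a) := this
        _ = 2 * (a * t) := by ring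
    omega
  · rw [e]
    have h5 : min ((d + 2).choose 2) (r * (q + 1 + 1).choose 2) ≤ (d + 2).choose 2 :=
      min_le_left _ _
    calc 2 * min ((d + 2).choose 2) (r * (q + 1 + 1).choose 2) ≤ 2 * (d + 1 + 1).choose 2 :=
          Nat.mul_le_mul_left 2 h5
      _ = (d + 1) * (d + 1 + 1) := h3
  · rw [e]; exact hN

/-- It suffices to look at the two critical degrees. -/
theorem all_degrees {r m : ℕ} (h : ∀ d : ℕ, (d + 1).choose 2 ≤ r * (m + 1).choose 2 →
    r * (m + 1).choose 2 < (d + 3).choose 2 → Good K r m (fun b => d + 1 - b)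
      (min ((d + 2).choose 2) (r * (m + 1).choose 2))) :
    ∀ d : ℕ, Good K r m (fun b => d + 1 - b) (min ((d + 2).choose 2) (r * (m + 1).choose 2)) := by
  have h1 : ∀ d : ℕ, r * (m + 1).choose 2 < (d + 3).choose 2 → Good K r m (fun b => d + 1 - b)
      (min ((d + 2).choose 2) (r * (m + 1).choose 2)) := by
    intro d
    induction d with
    | zero =>
      intro h0
      exact h 0 (by simp) h0
    | succ d ih =>
      intro h0
      by_cases h2 : (d + 1 + 1).choose 2 ≤ r * (m + 1).choose 2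
      · exact h (d + 1) h2 h0
      · have h3 : (d + 2).choose 2 ≤ (d + 3).choose 2 := Nat.choose_le_choose 2 (by omega)
        have h4 : (d + 1 + 1).choose 2 = (d + 2).choose 2 := rfl
        have h5 := ih (by omega)
        have h6 : (d + 1 + 2).choose 2 = (d + 3).choose 2 := rfl
        rw [min_eq_right (by omega)] at h5 ⊢
        exact h5.mono (fun i => by omega)
  have h2 : ∀ j d : ℕ, r * (m + 1).choose 2 < (d + j + 3).choose 2 →
      Good K r m (fun b => d + 1 - b) (min ((d + 2).choose 2) (r * (m + 1).choose 2)) := by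
    intro j
    induction j with
    | zero => intro d h0; exact h1 d h0
    | succ j ih =>
      intro d h0
      by_cases h3 : r * (m + 1).choose 2 < (d + 3).choose 2
      · exact h1 d h3
      · apply good_down (by omega)
        apply ih (d + 1)
        have e : d + 1 + j + 3 = d + (j + 1) + 3 := by omega
        rw [e]
        exact h0
  intro d
  apply h2 (r * (m + 1).choose 2) d
  have h3 := two_mul_choose (d + r * (m + 1).choose 2 + 2)
  nlinarith

/-- **The window theorem.** -/
theorem good_window [Infinite K] {r m a k : ℕ} (hm : 1 ≤ m) (ha : 2 ≤ a)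
    (hk : a ^ 2 + 2 * k = r) (h1 : a ^ 2 * (m + 1) + a ≤ r * m) (h2 : r * m ≤ a ^ 2 * (m + 3))
    (h3 : 2 * m ≤ a * (a + 1)) (d : ℕ) :
    Good K r m (fun b => d + 1 - b) (min ((d + 2).choose 2) (r * (m + 1).choose 2)) := by
  revert d
  apply all_degrees
  intro d hd1 hd2
  obtain ⟨q, rfl⟩ : ∃ q, m = q + 1 := ⟨m - 1, by omega⟩
  have e1 := two_mul_choose d
  have e2 := two_mul_choose (d + 2)
  have e3 := two_mul_choose (q + 1)
  have hd1' : d * (d + 1) ≤ r * ((q + 1) * (q + 2)) := by
    have h4 : 2 * (r * (q + 1 + 1).choose 2) = r * ((q + 1) * (q + 2)) := by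
      calc 2 * (r * (q + 1 + 1).choose 2) = r * (2 * (q + 1 + 1).choose 2) := by ring
        _ = r * ((q + 1) * (q + 1 + 1)) := by rw [e3]
    rw [← h4]
    omega
  have hd2' : r * ((q + 1) * (q + 2)) < (d + 2) * (d + 3) := by
    have h4 : 2 * (r * (q + 1 + 1).choose 2) = r * ((q + 1) * (q + 2)) := by
      calc 2 * (r * (q + 1 + 1).choose 2) = r * (2 * (q + 1 + 1).choose 2) := by ring
        _ = r * ((q + 1) * (q + 1 + 1)) := by rw [e3]
    have e5 : 2 * (d + 3).choose 2 = (d + 2) * (d + 3) := e2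
    rw [← h4]
    omega
  have hlow : a * (q + 2) ≤ d + 1 := by
    by_contra hcon
    have h4 : d + 2 ≤ a * (q + 2) := by omega
    have h5 : (d + 2) * (d + 3) ≤ a * (q + 2) * (a * (q + 2) + 1) :=
      Nat.mul_le_mul h4 (by omega)
    have h6 : a * (q + 2) * (a * (q + 2) + 1) = (q + 2) * (a ^ 2 * (q + 1 + 1) + a) := by ring
    have h7 : (q + 2) * (a ^ 2 * (q + 1 + 1) + a) ≤ (q + 2) * (r * (q + 1)) :=
      Nat.mul_le_mul_left _ h1
    have h8 : (q + 2) * (r * (q + 1)) = r * ((q + 1) * (q + 2)) := by ring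
    omega
  have hhigh : d + 1 ≤ a * (q + 3) := by
    by_contra hcon
    have h4 : a * (q + 3) + 1 ≤ d + 1 := by omega
    have h5 : a * (q + 3) * (a * (q + 3) + 1) ≤ d * (d + 1) := Nat.mul_le_mul (by omega) h4
    have h7 : (q + 2) * (r * (q + 1)) ≤ (q + 2) * (a ^ 2 * (q + 1 + 3)) :=
      Nat.mul_le_mul_left _ h2
    have h8 : (q + 2) * (r * (q + 1)) = r * ((q + 1) * (q + 2)) := by ring
    have h9 : a * (q + 3) * (a * (q + 3) + 1)
        = (q + 2) * (a ^ 2 * (q + 1 + 3)) + a ^ 2 + a * (q + 3) := by ring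
    have h10 : 0 < a ^ 2 := by positivity
    omega
  obtain ⟨t, ht⟩ : ∃ t, d + 1 = a * (q + 2) + t := ⟨d + 1 - a * (q + 2), by omega⟩
  have e6 : a * (q + 3) = a * (q + 2) + a := by ring
  refine start_good (k := k) (by omega) hk (by omega) ht h3 ?_
  have h4 : (d + 1) * (d + 2) + 2 * (d + 2) = (d + 2) * (d + 3) := by ring
  have h5 : r * (q + 1) * q + 2 * (r * (q + 1)) = r * ((q + 1) * (q + 2)) := by ring
  have h6 : (2 * a) * (q + 2) ≤ a ^ 2 * (q + 1 + 1) := by
    have : 2 * a ≤ a ^ 2 := by nlinarith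
    exact Nat.mul_le_mul_right _ this
  have h7 : (2 * a) * (q + 2) = 2 * (a * (q + 2)) := by ring
  have h8 : 2 * (q + 2) ≤ a * (q + 2) := Nat.mul_le_mul_right _ ha
  omega

end Pool.Agent.Helper21.E6
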